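import Pool.Agent.N557.QW.Stm

/-!
# Project QWP, part POS: positive matrices over a C*-algebra are of the form `R* R`
-/

set_option autoImplicit false
set_option linter.unusedSectionVars false

namespace Pool.Agent.N403.QWP

open scoped ComplexOrder InnerProductSpace

noncomputable section

variable {K : Type} [NormedAddCommGroup K] [InnerProductSpace ℂ K] [CompleteSpace K] {n : ℕ}

/-- the Hilbert space sum of `n` copies -/
abbrev Hn (n : ℕ) (K : Type) : Type := PiLp 2 (fun _ : Fin n => K)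

/-- the coordinate -/
def pr (i : Fin n) : Hn n K →L[ℂ] K := PiLp.proj 2 (fun _ : Fin n => K) i

lemma pr_apply (i : Fin n) (w : Hn n K) : pr i w = w i := rfl

/-- the inclusion -/
def inj (i : Fin n) : K →L[ℂ] Hn n K :=
  ((PiLp.continuousLinearEquiv 2 ℂ (fun _ : Fin n => K)).symm : (Fin n → K) →L[ℂ] Hn n K) ∘L
    (ContinuousLinearMap.single ℂ (fun _ : Fin n => K) i)

lemma inj_apply (i j : Fin n) (x : K) : inj i x j = if j = i then x else 0 := by
  change (Pi.single i x : Fin n → K) j = _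
  rw [Pi.single_apply]

lemma inj_eq (i : Fin n) : (inj i : K →L[ℂ] Hn n K) = ContinuousLinearMap.adjoint (pr i) := by
  rw [ContinuousLinearMap.eq_adjoint_iff]
  intro x w
  rw [PiLp.inner_apply, Finset.sum_eq_single i]
  · rw [inj_apply, if_pos rfl, pr_apply]
  · intro j _ hj
    rw [inj_apply, if_neg hj, inner_zero_left]
  · intro h; exact absurd (Finset.mem_univ i) h

lemma sum_inj (w : Hn n K) : ∑ l, inj l (pr l w) = w := by
  ext j
  have h1 : (∑ l, inj l (pr l w)) j = ∑ l, (inj l (pr l w)) j := by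
    have := map_sum (pr j : Hn n K →L[ℂ] K) (fun l => inj l (pr l w)) Finset.univ
    exact this
  rw [h1, Finset.sum_eq_single j]
  · rw [inj_apply, if_pos rfl, pr_apply]
  · intro l _ hl
    rw [inj_apply, if_neg hl.symm]
  · intro h; exact absurd (Finset.mem_univ j) h

/-- the entries of an operator -/
def ent (T : Hn n K →L[ℂ] Hn n K) (i j : Fin n) : K →L[ℂ] K := pr i ∘L T ∘L inj j

lemma ent_mul (T S : Hn n K →L[ℂ] Hn n K) (i j : Fin n) :
    ent (T * S) i j = ∑ l, ent T i l * ent S l j := by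
  ext x
  rw [ContinuousLinearMap.sum_apply]
  change pr i (T (S (inj j x))) = ∑ l, pr i (T (inj l (pr l (S (inj j x)))))
  rw [← map_sum, ← map_sum, sum_inj]

lemma ent_star (T : Hn n K →L[ℂ] Hn n K) (i j : Fin n) : ent (star T) i j = star (ent T j i) := by
  rw [ent, ent, ContinuousLinearMap.star_eq_adjoint, ContinuousLinearMap.star_eq_adjoint,
    ContinuousLinearMap.adjoint_comp, ContinuousLinearMap.adjoint_comp, inj_eq, inj_eq,
    ContinuousLinearMap.adjoint_adjoint, ContinuousLinearMap.comp_assoc]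

lemma ent_add (T S : Hn n K →L[ℂ] Hn n K) (i j : Fin n) :
    ent (T + S) i j = ent T i j + ent S i j := by
  ext x
  change pr i (T (inj j x) + S (inj j x)) = pr i (T (inj j x)) + pr i (S (inj j x))
  rw [map_add]

lemma ent_algebraMap (c : ℂ) (i j : Fin n) :
    ent (algebraMap ℂ (Hn n K →L[ℂ] Hn n K) c) i j =
      if i = j then algebraMap ℂ (K →L[ℂ] K) c else 0 := by
  ext x
  rw [Algebra.algebraMap_eq_smul_one]
  change pr i (c • (inj j x)) = _
  rw [map_smul, pr_apply, inj_apply]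
  by_cases h : i = j
  · rw [if_pos h, if_pos h, Algebra.algebraMap_eq_smul_one]; rfl
  · rw [if_neg h, if_neg h, smul_zero]; rfl

lemma ent_cont (i j : Fin n) : Continuous (fun T : Hn n K →L[ℂ] Hn n K => ent T i j) := by
  unfold ent
  fun_prop

/-- the operators with entries in a star subalgebra -/
def MS (L : StarSubalgebra ℂ (K →L[ℂ] K)) (n : ℕ) :
    StarSubalgebra ℂ (Hn n K →L[ℂ] Hn n K) where
  carrier := {T | ∀ i j, ent T i j ∈ L}
  mul_mem' := by
    intro T S hT hS i j
    rw [ent_mul]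
    exact sum_mem fun l _ => mul_mem (hT i l) (hS l j)
  add_mem' := by
    intro T S hT hS i j
    rw [ent_add]
    exact add_mem (hT i j) (hS i j)
  algebraMap_mem' := by
    intro c i j
    rw [ent_algebraMap]
    by_cases h : i = j
    · rw [if_pos h]; exact L.algebraMap_mem c
    · rw [if_neg h]; exact zero_mem L
  star_mem' := by
    intro T hT i j
    rw [ent_star]
    exact star_mem (hT j i)

lemma MS_closed (L : StarSubalgebra ℂ (K →L[ℂ] K)) (hL : IsClosed (L : Set (K →L[ℂ] K))) :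
    IsClosed ((MS L n : StarSubalgebra ℂ (Hn n K →L[ℂ] Hn n K)) :
      Set (Hn n K →L[ℂ] Hn n K)) := by
  have h1 : ((MS L n : StarSubalgebra ℂ (Hn n K →L[ℂ] Hn n K)) : Set (Hn n K →L[ℂ] Hn n K)) =
      ⋂ i : Fin n, ⋂ j : Fin n, (fun T => ent T i j) ⁻¹' (L : Set (K →L[ℂ] K)) := by
    ext T
    simp only [Set.mem_iInter, Set.mem_preimage, SetLike.mem_coe]
    rfl
  rw [h1]
  exact isClosed_iInter fun i => isClosed_iInter fun j => hL.preimage (ent_cont i j)

/-- the operator of a matrix -/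
def op (b : Fin n → Fin n → K →L[ℂ] K) : Hn n K →L[ℂ] Hn n K :=
  ∑ i, ∑ j, inj i ∘L b i j ∘L pr j

lemma op_apply (b : Fin n → Fin n → K →L[ℂ] K) (w : Hn n K) (i : Fin n) :
    pr i (op b w) = ∑ j, b i j (w j) := by
  have h1 : op b w = ∑ i, ∑ j, inj i (b i j (w j)) := by
    simp only [op, ContinuousLinearMap.sum_apply]
    rfl
  rw [h1, map_sum, Finset.sum_eq_single i]
  · rw [map_sum]
    refine Finset.sum_congr rfl fun j _ => ?_
    rw [pr_apply, inj_apply, if_pos rfl]
  · intro l _ hl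
    rw [map_sum]
    refine Finset.sum_eq_zero fun j _ => ?_
    rw [pr_apply, inj_apply, if_neg hl.symm]
  · intro h; exact absurd (Finset.mem_univ i) h

lemma ent_op (b : Fin n → Fin n → K →L[ℂ] K) (i j : Fin n) : ent (op b) i j = b i j := by
  ext x
  change pr i (op b (inj j x)) = b i j x
  rw [op_apply, Finset.sum_eq_single j]
  · rw [inj_apply, if_pos rfl]
  · intro l _ hl
    rw [inj_apply, if_neg hl, map_zero]
  · intro h; exact absurd (Finset.mem_univ j) h

lemma ent_inj (T S : Hn n K →L[ℂ] Hn n K) (h : ∀ i j, ent T i j = ent S i j) : T = S := by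
  ext w i
  have h1 : ∀ U : Hn n K →L[ℂ] Hn n K, (U w) i = ∑ j, ent U i j (w j) := by
    intro U
    change pr i (U w) = ∑ j, pr i (U (inj j (pr j w)))
    rw [← map_sum, ← map_sum, sum_inj]
  rw [h1, h1]
  simp only [h]

theorem t_pos_core (L : StarSubalgebra ℂ (K →L[ℂ] K)) (hL : IsClosed (L : Set (K →L[ℂ] K)))
    (n : ℕ) (b : Fin n → Fin n → K →L[ℂ] K) (hb : ∀ i j, b i j ∈ L)
    (hs : ∀ i j, star (b i j) = b j i)
    (hp : ∀ w : Fin n → K, 0 ≤ (∑ i, ∑ j, inner ℂ (w i) (b i j (w j))).re) :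
    ∃ R : Fin n → Fin n → K →L[ℂ] K, (∀ i j, R i j ∈ L) ∧
      ∀ i j, b i j = ∑ l, star (R l i) * R l j := by
  let M : Hn n K →L[ℂ] Hn n K := op b
  have hMs : star M = M := by
    refine ent_inj _ _ fun i j => ?_
    rw [ent_star, ent_op, ent_op, hs]
  have hM : 0 ≤ M := by
    rw [ContinuousLinearMap.nonneg_iff_isPositive, ContinuousLinearMap.isPositive_def']
    refine ⟨hMs, fun w => ?_⟩
    rw [ContinuousLinearMap.reApplyInnerSelf_apply, ← inner_conj_symm, RCLike.conj_re]
    have h1 : inner ℂ w (M w) = ∑ i, ∑ j, inner ℂ (w i) (b i j (w j)) := by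
      rw [PiLp.inner_apply]
      refine Finset.sum_congr rfl fun i _ => ?_
      rw [← inner_sum]
      congr 1
      exact op_apply b w i
    rw [h1]
    exact hp _
  have hMm : M ∈ MS L n := fun i j => by rw [ent_op]; exact hb i j
  have hcl : IsClosed ((MS L n : StarSubalgebra ℂ (Hn n K →L[ℂ] Hn n K)) :
      Set (Hn n K →L[ℂ] Hn n K)) := MS_closed L hL
  let R : Hn n K →L[ℂ] Hn n K := CFC.sqrt M
  have hRR : R * R = M := CFC.sqrt_mul_sqrt_self M hM
  have hRs : star R = R := (CFC.sqrt_nonneg M).isSelfAdjoint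
  have hRm : R ∈ MS L n := by
    have h2 : R = cfcₙ Real.sqrt M := CFC.sqrt_eq_real_sqrt M hM
    rw [h2]
    exact cfcₙ_mem (𝕜' := ℂ) Real.sqrt hMm
  refine ⟨fun i j => ent R i j, hRm, fun i j => ?_⟩
  have h3 : ent (star R * R) i j = b i j := by
    rw [hRs, hRR, ent_op]
  rw [← h3, ent_mul]
  refine Finset.sum_congr rfl fun l _ => ?_
  rw [ent_star]

/-- **POS**. -/
theorem t_pos : Pool.Agent.N557.QW.S_POS := by
  intro K _ _ _ L hL n b hb hs hp
  exact t_pos_core L hL n b hb hs hp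

end

end Pool.Agent.N403.QWP
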